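import Pool.Agent.H93.ET.Defs

/-!
# Growth threshold: row PNT (sizes and uniqueness of the points)
-/

set_option autoImplicit false

namespace Pool.Agent.H24.ET

open Pool.Agent.H93.ET Pool.Agent.H85.SC Pool.Agent.H87.Synth
open Finset

section

variable {d : ℕ → ℝ} (D : Dat d)

theorem bpos (k : ℕ) : 12 ≤ (D.b (D.mu k) : ℤ) := by
  have h1 : D.mu 0 ≤ D.mu k := D.hmu.monotone (Nat.zero_le k)
  have h2 : D.b (D.mu 0) ≤ D.b (D.mu k) := D.hb.monotone h1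
  have h3 := D.p0
  exact_mod_cast h3.trans h2

theorem bgrow (k : ℕ) : 20 * (D.b (D.mu k) : ℤ) ≤ (D.b (D.mu (k + 1)) : ℤ) := by
  exact_mod_cast D.grow k

theorem bmono {k l : ℕ} (h : k ≤ l) : (D.b (D.mu k) : ℤ) ≤ (D.b (D.mu l) : ℤ) := by
  exact_mod_cast D.hb.monotone (D.hmu.monotone h)

theorem jj01 (s : Bool) : jj s = 0 ∨ jj s = 1 := by
  cases s <;> simp [jj]

theorem jj_inj {s s' : Bool} (h : jj s = jj s') : s = s' := by
  cases s <;> cases s' <;> simp_all [jj]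

theorem absb {b t : ℤ} : (b ≤ 2 * |t| → (b ≤ 2 * t ∨ b ≤ -(2 * t))) := by
  intro h
  rcases abs_cases t with ⟨h1, _⟩ | ⟨h1, _⟩
  · rw [h1] at h; left; exact h
  · rw [h1] at h; right; linarith

theorem gwz {k : ℕ} {z : ℤ} (hz : z ∈ GW k (D.Z k)) : z % 6 = 4 ∧
    12 * (D.b (D.mu (k + 1)) : ℤ) ≤ z ∧ z < 12 * (D.b (D.mu (k + 1)) : ℤ) + LL k ∧
    z < 13 * (D.b (D.mu (k + 1)) : ℤ) := by
  unfold GW at hz
  rw [Finset.mem_filter, Finset.mem_Ico] at hz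
  obtain ⟨⟨h1, h2⟩, h3⟩ := hz
  unfold Dat.Z at h1 h2
  have h4 : (LL k : ℤ) ≤ (D.b (D.mu (k + 1)) : ℤ) := by exact_mod_cast D.gadp k
  exact ⟨h3, h1, h2, by linarith⟩

/-- different levels of the same parity are far -/
theorem far {k k' : ℕ} {t : ℤ} (h : k + 2 ≤ k') (h1 : D.g k t ≠ 0) (h2 : D.g k' t ≠ 0) : False := by
  have e1 := (D.gsupp k t h1).2
  have e2 := (D.gsupp k' t h2).1
  have e3 : (D.b (D.mu (k + 2)) : ℤ) ≤ (D.b (D.mu k') : ℤ) := bmono D h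
  have e4 := bgrow D (k + 1)
  have e5 := bpos D (k + 1)
  have e6 : (D.b (D.mu (k + 1 + 1)) : ℤ) = (D.b (D.mu (k + 2)) : ℤ) := rfl
  linarith

end

theorem pnt : T_PNT := by
  intro d D
  refine ⟨?_, ?_, ?_, ?_, ?_, ?_⟩
  · intro k t i s hg hi
    obtain ⟨h1, h2⟩ := D.gsupp k t hg
    have h3 := bpos D k
    have h4 := bpos D (k + 1)
    have hr : ((k : ℤ) % 2) = 0 ∨ ((k : ℤ) % 2) = 1 := by omega
    have hj := jj01 s
    unfold pt
    generalize (D.b (D.mu k) : ℤ) = B at *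
    generalize (D.b (D.mu (k + 1)) : ℤ) = B' at *
    generalize ((k : ℤ) % 2) = ρ at *
    generalize jj s = j at *
    rcases abs_cases t with ⟨e1, e2⟩ | ⟨e1, e2⟩ <;> rw [e1] at h1 h2 <;>
    rcases abs_cases (12 * t + 6 * i + 2 * ρ + j) with ⟨e3, e4⟩ | ⟨e3, e4⟩ <;> rw [e3] <;>
    constructor <;> omega
  · intro k k' t t' i i' s s' h1 h2 hi hi' h
    unfold pt at h
    have hj := jj01 s
    have hj' := jj01 s'
    have h3 : t = t' ∧ i = i' ∧ (k : ℤ) % 2 = (k' : ℤ) % 2 ∧ jj s = jj s' := by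
      have hr : ((k : ℤ) % 2) = 0 ∨ ((k : ℤ) % 2) = 1 := by omega
      have hr' : ((k' : ℤ) % 2) = 0 ∨ ((k' : ℤ) % 2) = 1 := by omega
      generalize ((k : ℤ) % 2) = ρ at *
      generalize ((k' : ℤ) % 2) = ρ' at *
      generalize jj s = j at *
      generalize jj s' = j' at *
      refine ⟨?_, ?_, ?_, ?_⟩ <;> omega
    obtain ⟨rfl, h4, h5, h6⟩ := h3
    refine ⟨?_, rfl, h4, jj_inj h6⟩
    by_contra hne
    rcases lt_or_gt_of_ne hne with hlt | hgt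
    · exact far D (by omega) h1 h2
    · exact far D (by omega) h2 h1
  · intro k k' t i s z hi hz h
    have h1 := (gwz D hz).1
    have hj := jj01 s
    have hr : ((k : ℤ) % 2) = 0 ∨ ((k : ℤ) % 2) = 1 := by omega
    unfold pt at h
    generalize ((k : ℤ) % 2) = ρ at *
    generalize jj s = j at *
    omega
  · intro k k' z hz hz'
    obtain ⟨-, a1, -, a2⟩ := gwz D hz
    obtain ⟨-, b1, -, b2⟩ := gwz D hz'
    by_contra hne
    rcases lt_or_gt_of_ne hne with hlt | hgt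
    · have e1 : (D.b (D.mu (k + 2)) : ℤ) ≤ (D.b (D.mu (k' + 1)) : ℤ) := bmono D (by omega)
      have e2 := bgrow D (k + 1)
      have e3 := bpos D (k + 1)
      have e6 : (D.b (D.mu (k + 1 + 1)) : ℤ) = (D.b (D.mu (k + 2)) : ℤ) := rfl
      linarith
    · have e1 : (D.b (D.mu (k' + 2)) : ℤ) ≤ (D.b (D.mu (k + 1)) : ℤ) := bmono D (by omega)
      have e2 := bgrow D (k' + 1)
      have e3 := bpos D (k' + 1)
      have e6 : (D.b (D.mu (k' + 1 + 1)) : ℤ) = (D.b (D.mu (k' + 2)) : ℤ) := rfl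
      linarith
  · intro k m m' t a1 a2 a3 a4 h1 h2
    have e1 := Finset.mem_Ico.1 ((D.hT k m a1 a2).1 h1)
    have e2 := Finset.mem_Ico.1 ((D.hT k m' a3 a4).1 h2)
    by_contra hne
    rcases lt_or_gt_of_ne hne with hlt | hgt
    · have e3 : (D.b (m + 1) : ℤ) ≤ (D.b m' : ℤ) := by
        exact_mod_cast D.hb.monotone (Nat.succ_le_of_lt hlt)
      linarith [e1.2, e2.1]
    · have e3 : (D.b (m' + 1) : ℤ) ≤ (D.b m : ℤ) := by
        exact_mod_cast D.hb.monotone (Nat.succ_le_of_lt hgt)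
      linarith [e1.1, e2.2]
  · intro k z hz
    obtain ⟨-, a1, a2, -⟩ := gwz D hz
    exact ⟨a1, a2⟩

end Pool.Agent.H24.ET
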